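import Mathlib

set_option autoImplicit false

/-!
Core argument: weights on `ℕ` and a hereditary family.
-/

namespace Pool.Agent.W_MP_441f99_an

open Set Topology ENNReal

/-- mass of the set coded by `A` -/
noncomputable def mass (w : ℕ → ℝ≥0∞) (A : ℕ → Bool) : ℝ≥0∞ := ∑' i, if A i then w i else 0

lemma mass_mono {w w' : ℕ → ℝ≥0∞} (h : w ≤ w') (A : ℕ → Bool) : mass w A ≤ mass w' A := by
  apply ENNReal.tsum_le_tsum
  intro i
  split_ifs
  · exact h i
  · exact le_rfl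

lemma mass_add (w w' : ℕ → ℝ≥0∞) (A : ℕ → Bool) : mass (w + w') A = mass w A + mass w' A := by
  unfold mass
  rw [← ENNReal.tsum_add]
  congr 1
  funext i
  split_ifs
  · rfl
  · simp

lemma mass_zero (A : ℕ → Bool) : mass 0 A = 0 := by simp [mass]

lemma mass_smul (c : ℝ≥0∞) (w : ℕ → ℝ≥0∞) (A : ℕ → Bool) :
    mass (fun i => c * w i) A = c * mass w A := by
  unfold mass
  rw [← ENNReal.tsum_mul_left]
  congr 1
  funext i
  split_ifs
  · rfl
  · simp

lemma sum_le_mass (w : ℕ → ℝ≥0∞) (A : ℕ → Bool) (s : Finset ℕ) :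
    ∑ i ∈ s, (if A i then w i else 0) ≤ mass w A := ENNReal.sum_le_tsum s

lemma mass_le_of_range {w : ℕ → ℝ≥0∞} {A : ℕ → Bool} {C : ℝ≥0∞}
    (h : ∀ N, ∑ i ∈ Finset.range N, (if A i then w i else 0) ≤ C) : mass w A ≤ C := by
  unfold mass
  rw [ENNReal.tsum_eq_iSup_nat]
  exact iSup_le h

/-- the closure of the family -/
def K (F : Set (Finset ℕ)) : Set (ℕ → Bool) := {A | ∀ s : Finset ℕ, (∀ i ∈ s, A i = true) → s ∈ F}

lemma isClosed_K (F : Set (Finset ℕ)) : IsClosed (K F) := by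
  have : K F = ⋂ s ∈ {s : Finset ℕ | s ∉ F}, {A : ℕ → Bool | ∀ i ∈ s, A i = true}ᶜ := by
    ext A
    simp only [K, mem_ofPred_eq, mem_iInter, mem_compl_iff]
    constructor
    · intro h s hs hA
      exact hs (h s hA)
    · intro h s hA
      by_contra hs
      exact h s hs hA
  rw [this]
  apply isClosed_biInter
  intro s _
  apply IsOpen.isClosed_compl
  have : {A : ℕ → Bool | ∀ i ∈ s, A i = true} = ⋂ i ∈ s, {A : ℕ → Bool | A i = true} := by
    ext A; simp
  rw [this]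
  apply isOpen_biInter_finset
  intro i _
  have h : IsOpen ((fun A : ℕ → Bool => A i) ⁻¹' {true}) :=
    (isOpen_discrete _).preimage (continuous_apply i)
  exact h

lemma isCompact_K (F : Set (Finset ℕ)) : IsCompact (K F) := (isClosed_K F).isCompact

/-- admissible weights below `w₀` -/
def Adm (F : Set (Finset ℕ)) (w₀ w : ℕ → ℝ≥0∞) : Prop :=
  w ≤ w₀ ∧ ∀ m : ℕ, ∃ s ∈ F, (∀ i ∈ s, m ≤ i) ∧ 1 ≤ ∑ i ∈ s, w i

/-- good sets -/
def Good (F : Set (Finset ℕ)) (w₀ : ℕ → ℝ≥0∞) (L : Set (ℕ → Bool)) : Prop :=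
  ∀ w, Adm F w₀ w → ∃ w', Adm F w₀ w' ∧ w' ≤ w ∧ ∃ C : ℝ≥0∞, C ≠ ∞ ∧ ∀ A ∈ L, mass w' A ≤ C

/-- the negation of what we want -/
def Hyp (F : Set (Finset ℕ)) (w₀ : ℕ → ℝ≥0∞) : Prop :=
  ∀ w, Adm F w₀ w → ∀ C : ℝ≥0∞, C ≠ ∞ → ∃ A ∈ K F, C < mass w A

variable {F : Set (Finset ℕ)} {w₀ : ℕ → ℝ≥0∞}

lemma good_empty : Good F w₀ ∅ := fun w hw => ⟨w, hw, le_rfl, 0, by simp, by simp⟩

lemma good_mono {L L' : Set (ℕ → Bool)} (h : L ⊆ L') (hg : Good F w₀ L') : Good F w₀ L := by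
  intro w hw
  obtain ⟨w', h1, h2, C, h3, h4⟩ := hg w hw
  exact ⟨w', h1, h2, C, h3, fun A hA => h4 A (h hA)⟩

lemma good_union {L L' : Set (ℕ → Bool)} (h : Good F w₀ L) (h' : Good F w₀ L') :
    Good F w₀ (L ∪ L') := by
  intro w hw
  obtain ⟨w1, h1, h2, C, h3, h4⟩ := h w hw
  obtain ⟨w2, h1', h2', C', h3', h4'⟩ := h' w1 h1
  refine ⟨w2, h1', h2'.trans h2, max C C', ?_, ?_⟩
  · rw [ne_eq, max_eq_top]
    tauto
  · intro A hA
    rcases hA with hA | hA
    · exact ((mass_mono h2' A).trans (h4 A hA)).trans (le_max_left _ _)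
    · exact (h4' A hA).trans (le_max_right _ _)

/-- scaling preserves admissibility, under `Hyp` -/
lemma adm_scale (hfin : ∀ i, w₀ i ≠ ∞) (H : Hyp F w₀) {w : ℕ → ℝ≥0∞} (hw : Adm F w₀ w)
    (c : ℝ≥0∞) (hc0 : c ≠ 0) (hc1 : c ≤ 1) : Adm F w₀ (fun i => c * w i) := by
  refine ⟨?_, ?_⟩
  · intro i
    calc c * w i ≤ 1 * w i := by gcongr
      _ = w i := one_mul _
      _ ≤ w₀ i := hw.1 i
  · intro m
    have hctop : c ≠ ∞ := ne_top_of_le_ne_top one_ne_top hc1
    have hC : (∑ i ∈ Finset.range m, w i) + c⁻¹ ≠ ∞ := by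
      rw [ENNReal.add_ne_top]
      refine ⟨?_, by simpa using hc0⟩
      rw [ENNReal.sum_ne_top]
      intro i _
      exact ne_top_of_le_ne_top (hfin i) (hw.1 i)
    obtain ⟨A, hA, hCA⟩ := H w hw _ hC
    unfold mass at hCA
    rw [ENNReal.tsum_eq_iSup_sum, lt_iSup_iff] at hCA
    obtain ⟨t, ht⟩ := hCA
    refine ⟨t.filter (fun i => A i = true ∧ m ≤ i), ?_, ?_, ?_⟩
    · apply hA
      intro i hi
      exact (Finset.mem_filter.mp hi).2.1
    · intro i hi
      exact (Finset.mem_filter.mp hi).2.2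
    · have h1 : ∑ i ∈ t, (if A i = true then w i else 0) ≤
          (∑ i ∈ Finset.range m, w i) + ∑ i ∈ t.filter (fun i => A i = true ∧ m ≤ i), w i := by
        have h2 : ∑ i ∈ t, (if A i = true then w i else 0) =
            ∑ i ∈ t.filter (fun i => A i = true), w i := by
          rw [Finset.sum_filter]
        rw [h2]
        have h3 : t.filter (fun i => A i = true) ⊆
            Finset.range m ∪ t.filter (fun i => A i = true ∧ m ≤ i) := by
          intro i hi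
          rw [Finset.mem_filter] at hi
          rw [Finset.mem_union, Finset.mem_range, Finset.mem_filter]
          by_cases him : i < m
          · left; exact him
          · right; exact ⟨hi.1, hi.2, by omega⟩
        calc ∑ i ∈ t.filter (fun i => A i = true), w i
            ≤ ∑ i ∈ Finset.range m ∪ t.filter (fun i => A i = true ∧ m ≤ i), w i :=
              Finset.sum_le_sum_of_subset h3
          _ ≤ _ := by
              rw [← Finset.sum_union_inter]
              exact le_self_add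
      have h4 : (∑ i ∈ Finset.range m, w i) + c⁻¹ <
          (∑ i ∈ Finset.range m, w i) + ∑ i ∈ t.filter (fun i => A i = true ∧ m ≤ i), w i :=
        lt_of_lt_of_le ht h1
      have h5 : c⁻¹ < ∑ i ∈ t.filter (fun i => A i = true ∧ m ≤ i), w i :=
        lt_of_add_lt_add_left h4
      rw [← Finset.mul_sum]
      calc (1 : ℝ≥0∞) = c * c⁻¹ := (ENNReal.mul_inv_cancel hc0 hctop).symm
        _ ≤ _ := by gcongr

/-- good sets can be made small -/
lemma good_small (hfin : ∀ i, w₀ i ≠ ∞) (H : Hyp F w₀) {L : Set (ℕ → Bool)} (hL : Good F w₀ L)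
    (ε : ℝ≥0∞) (hε : ε ≠ 0) {w : ℕ → ℝ≥0∞} (hw : Adm F w₀ w) :
    ∃ w', Adm F w₀ w' ∧ w' ≤ w ∧ ∀ A ∈ L, mass w' A ≤ ε := by
  obtain ⟨w', h1, h2, C, h3, h4⟩ := hL w hw
  let c : ℝ≥0∞ := min 1 (ε / (C + 1))
  have hC1 : C + 1 ≠ ∞ := by simp [h3]
  have hc0 : c ≠ 0 := by
    have h : 0 < c := by
      apply lt_min one_pos
      exact ENNReal.div_pos hε hC1
    exact h.ne'
  have hc1 : c ≤ 1 := min_le_left _ _
  refine ⟨fun i => c * w' i, adm_scale hfin H h1 c hc0 hc1, ?_, ?_⟩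
  · intro i
    calc c * w' i ≤ 1 * w' i := by gcongr
      _ = w' i := one_mul _
      _ ≤ w i := h2 i
  · intro A hA
    rw [mass_smul]
    calc c * mass w' A ≤ (ε / (C + 1)) * (C + 1) := by
          gcongr
          · exact min_le_right _ _
          · exact (h4 A hA).trans le_self_add
      _ = ε := ENNReal.div_mul_cancel (by simp) hC1

end Pool.Agent.W_MP_441f99_an
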