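import Mathlib

set_option autoImplicit false

/-!
Definitions for the statement: hereditary covers of `ℕ`, the norm of the combinatorial space, the
closure of the family, supported normalized block sequences and the two properties compared.
-/

namespace Pool.Agent.W_MP_441f99_an

open ENNReal

/-- `F` is a family of finite subsets of `ℕ` closed under subsets and containing every singleton. -/
structure IsHereditaryCover (F : Set (Finset ℕ)) : Prop where
  hereditary : ∀ s ∈ F, ∀ t ⊆ s, t ∈ F
  covers : ∀ n : ℕ, {n} ∈ F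

/-- The norm `‖x‖_F = sup_{s ∈ F} ∑_{i ∈ s} |x i|`, with values in `[0,∞]`. -/
noncomputable def normF (F : Set (Finset ℕ)) (x : ℕ → ℝ) : ℝ≥0∞ :=
  ⨆ s ∈ F, ∑ i ∈ s, ENNReal.ofReal |x i|

/-- The `ℓ₁` norm `∑_i |y i|`, with values in `[0,∞]`. -/
noncomputable def normOne (y : ℕ → ℝ) : ℝ≥0∞ := ∑' i, ENNReal.ofReal |y i|

/-- The closure of `F`: the sets `A ⊆ ℕ` all of whose finite subsets lie in `F`. -/
def closureF (F : Set (Finset ℕ)) : Set (Set ℕ) := {A | ∀ s : Finset ℕ, (s : Set ℕ) ⊆ A → s ∈ F}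

/-- An `F`-supported normalized block sequence. -/
structure IsSupportedBlock (F : Set (Finset ℕ)) (x : ℕ → ℕ →₀ ℝ) : Prop where
  successive : ∀ n, ∀ i ∈ (x n).support, ∀ j ∈ (x (n + 1)).support, i < j
  normalized : ∀ n, normF F (x n) = 1
  supported : ∀ n, (x n).support ∈ F

/-- The property `(¬c₀)`: for every `F`-supported normalized block sequence `(x_n)` the supremum
over `A` in the closure of `∑_n ‖P_A x_n‖_F` is infinite. -/
def NotC0 (F : Set (Finset ℕ)) : Prop :=
  ∀ x : ℕ → ℕ →₀ ℝ, IsSupportedBlock F x →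
    ⨆ A ∈ closureF F, ∑' n, normF F (A.indicator (x n)) = ∞

/-- The property `(Σ)`: for every `F`-supported normalized block sequence `(x_n)` there is a single
`A` in the closure with `∑_n ‖P_A x_n‖₁ = ∞`. -/
def PropSigma (F : Set (Finset ℕ)) : Prop :=
  ∀ x : ℕ → ℕ →₀ ℝ, IsSupportedBlock F x →
    ∃ A ∈ closureF F, ∑' n, normOne (A.indicator (x n)) = ∞

end Pool.Agent.W_MP_441f99_an
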