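import Pool.Agent.W_MP_441f99_an.Core

set_option autoImplicit false

/-!
The diagonalisation step.
-/

namespace Pool.Agent.W_MP_441f99_an

open Set Topology ENNReal

variable {F : Set (Finset ℕ)} {w₀ : ℕ → ℝ≥0∞}

/-- states of the recursion -/
structure St (F : Set (Finset ℕ)) (w₀ W0 : ℕ → ℝ≥0∞) where
  /-- current weight -/
  w : ℕ → ℝ≥0∞
  /-- current bound -/
  m : ℕ
  /-- accumulated weight -/
  v : ℕ → ℝ≥0∞
  adm : Adm F w₀ w
  le : w ≤ W0
  supp : ∀ i, m ≤ i → v i = 0
  vle : v ≤ W0

/-- one step of the recursion -/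
structure Rel (L : Set (ℕ → Bool)) {W0 : ℕ → ℝ≥0∞} (p q : St F w₀ W0) : Prop where
  wle : q.w ≤ p.w
  mlt : p.m < q.m
  veq : ∀ i, i < p.m → q.v i = p.v i
  vle : ∀ i, p.m ≤ i → q.v i ≤ p.w i
  ex : ∃ s ∈ F, (∀ i ∈ s, p.m ≤ i ∧ i < q.m) ∧ 1 ≤ ∑ i ∈ s, q.v i
  mass_le : ∀ A, mass q.v A ≤ mass p.v A + 1
  alt : ∀ A ∈ L, mass q.v A < 1/2 ∨ mass q.w A ≤ 1/4

lemma exists_step (hfin : ∀ i, w₀ i ≠ ∞) (H : Hyp F w₀) {L L' : Set (ℕ → Bool)} {W0 : ℕ → ℝ≥0∞}
    (hW0 : W0 ≤ w₀) (hW0L' : ∀ A ∈ L', mass W0 A ≤ 1/4)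
    (hLO : ∀ (v : ℕ → ℝ≥0∞) (m : ℕ), (∀ i, m ≤ i → v i = 0) →
      (∀ A ∈ L', mass v A < 1/2) → Good F w₀ {A | A ∈ L ∧ ¬ mass v A < 1/2})
    (p : St F w₀ W0) : ∃ q : St F w₀ W0, Rel L p q := by
  classical
  obtain ⟨s, hsF, hsm, hs1⟩ := p.adm.2 p.m
  let S := ∑ i ∈ s, p.w i
  have hS1 : 1 ≤ S := hs1
  have hS0 : S ≠ 0 := (lt_of_lt_of_le one_pos hS1).ne'
  have hStop : S ≠ ∞ := by
    rw [ENNReal.sum_ne_top]
    intro i _
    exact ne_top_of_le_ne_top (hfin i) ((p.le i).trans (hW0 i))
  let z : ℕ → ℝ≥0∞ := fun i => if i ∈ s then p.w i / S else 0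
  have hzle : ∀ i, z i ≤ p.w i := by
    intro i
    simp only [z]
    split_ifs
    · exact ENNReal.div_le_of_le_mul (by
        calc p.w i = p.w i * 1 := (mul_one _).symm
          _ ≤ p.w i * S := by gcongr)
    · exact zero_le
  have hz0 : ∀ i, i < p.m → z i = 0 := by
    intro i hi
    simp only [z]
    rw [if_neg]
    intro his
    have := hsm i his
    omega
  have hzsum : ∑ i ∈ s, z i = 1 := by
    have : ∑ i ∈ s, z i = ∑ i ∈ s, p.w i / S := by
      apply Finset.sum_congr rfl
      intro i hi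
      simp only [z]
      rw [if_pos hi]
    rw [this]
    simp only [div_eq_mul_inv]
    rw [← Finset.sum_mul]
    exact ENNReal.mul_inv_cancel hS0 hStop
  have hzmass : ∀ A, mass z A ≤ 1 := by
    intro A
    calc mass z A ≤ ∑' i, z i := by
          apply ENNReal.tsum_le_tsum
          intro i
          split_ifs
          · exact le_rfl
          · exact zero_le
      _ = ∑ i ∈ s, z i := by
          apply tsum_eq_sum
          intro i hi
          simp only [z]
          rw [if_neg hi]
      _ = 1 := hzsum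
      _ ≤ 1 := le_rfl
  let v' : ℕ → ℝ≥0∞ := p.v + z
  have hv'1 : ∀ i, i < p.m → v' i = p.v i := by
    intro i hi
    simp only [v', Pi.add_apply, hz0 i hi, add_zero]
  have hv'2 : ∀ i, p.m ≤ i → v' i = z i := by
    intro i hi
    simp only [v', Pi.add_apply, p.supp i hi, zero_add]
  have hv'le : v' ≤ W0 := by
    intro i
    by_cases hi : i < p.m
    · rw [hv'1 i hi]; exact p.vle i
    · rw [hv'2 i (by omega)]; exact (hzle i).trans (p.le i)
  let m' := max (p.m + 1) (s.sup id + 1)
  have hm's : ∀ i ∈ s, i < m' := by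
    intro i hi
    have : i ≤ s.sup id := Finset.le_sup (f := id) hi
    exact lt_of_lt_of_le (Nat.lt_succ_of_le this) (le_max_right _ _)
  have hv'supp : ∀ i, m' ≤ i → v' i = 0 := by
    intro i hi
    have h1 : p.m ≤ i := by
      have := (le_max_left (p.m+1) (s.sup id + 1)).trans hi
      omega
    rw [hv'2 i h1]
    simp only [z]
    rw [if_neg]
    intro his
    have := hm's i his
    omega
  have hv'L' : ∀ A ∈ L', mass v' A < 1/2 := by
    intro A hA
    calc mass v' A ≤ mass W0 A := mass_mono hv'le A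
      _ ≤ 1/4 := hW0L' A hA
      _ < 1/2 := by
        rw [one_div, one_div, ENNReal.inv_lt_inv]
        norm_num
  obtain ⟨w', h1, h2, h3⟩ := good_small hfin H (hLO v' m' hv'supp hv'L') (1/4) (by simp) p.adm
  refine ⟨⟨w', m', v', h1, h2.trans p.le, hv'supp, hv'le⟩, ⟨h2, ?_, hv'1, ?_, ?_, ?_, ?_⟩⟩
  · exact lt_of_lt_of_le (Nat.lt_succ_self _) (le_max_left _ _)
  · intro i hi
    show v' i ≤ p.w i
    rw [hv'2 i hi]
    exact hzle i
  · refine ⟨s, hsF, fun i hi => ⟨hsm i hi, hm's i hi⟩, ?_⟩
    rw [← hzsum]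
    apply Finset.sum_le_sum
    intro i _
    exact le_add_self
  · intro A
    show mass (p.v + z) A ≤ _
    rw [mass_add]
    gcongr
    exact hzmass A
  · intro A hA
    by_cases hc : mass v' A < 1/2
    · left; exact hc
    · right; exact h3 A ⟨hA, hc⟩

lemma diag (hfin : ∀ i, w₀ i ≠ ∞) (H : Hyp F w₀) {L L' : Set (ℕ → Bool)}
    (hL' : Good F w₀ L')
    (hLO : ∀ (v : ℕ → ℝ≥0∞) (m : ℕ), (∀ i, m ≤ i → v i = 0) →
      (∀ A ∈ L', mass v A < 1/2) → Good F w₀ {A | A ∈ L ∧ ¬ mass v A < 1/2}) :
    Good F w₀ L := by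
  classical
  intro w hw
  obtain ⟨W0, hW0, hW0w, hW0L'⟩ := good_small hfin H hL' (1/4) (by simp) hw
  have step := exists_step (L := L) hfin H hW0.1 hW0L' hLO
  choose nxt hnxt using step
  let st0 : St F w₀ W0 := ⟨W0, 0, 0, hW0, le_rfl, fun _ _ => rfl, fun _ => zero_le⟩
  let st : ℕ → St F w₀ W0 := fun n => Nat.rec st0 (fun _ p => nxt p) n
  have hst : ∀ n, Rel L (st n) (st (n+1)) := fun n => hnxt (st n)
  have hst0 : st 0 = st0 := rfl
  have hm : ∀ n, n ≤ (st n).m := by
    intro n
    induction n with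
    | zero => exact Nat.zero_le _
    | succ n ih =>
      have := (hst n).mlt
      omega
  have hmm : ∀ n k, n ≤ k → (st n).m ≤ (st k).m := by
    intro n k hnk
    induction k, hnk using Nat.le_induction with
    | base => exact le_rfl
    | succ k _ ih => exact ih.trans (hst k).mlt.le
  have hw_anti : ∀ n k, n ≤ k → (st k).w ≤ (st n).w := by
    intro n k hnk
    induction k, hnk using Nat.le_induction with
    | base => exact le_rfl
    | succ k _ ih => exact (hst k).wle.trans ih
  have hstab : ∀ n k, n ≤ k → ∀ i, i < (st n).m → (st k).v i = (st n).v i := by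
    intro n k hnk
    induction k, hnk using Nat.le_induction with
    | base => intro i _; rfl
    | succ k hk ih =>
      intro i hi
      rw [(hst k).veq i (lt_of_lt_of_le hi (hmm n k hk)), ih i hi]
  have hvw : ∀ n k, n ≤ k → ∀ i, (st k).v i ≤ (st n).v i + (st n).w i := by
    intro n k hnk
    induction k, hnk using Nat.le_induction with
    | base => intro i; exact le_self_add
    | succ k hk ih =>
      intro i
      by_cases hi : i < (st k).m
      · rw [(hst k).veq i hi]; exact ih i
      · calc (st (k+1)).v i ≤ (st k).w i := (hst k).vle i (by omega)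
          _ ≤ (st n).w i := hw_anti n k hk i
          _ ≤ _ := le_add_self
  let z : ℕ → ℝ≥0∞ := fun i => (st (i+1)).v i
  have hz_eq : ∀ n i, i < (st n).m → z i = (st n).v i := by
    intro n i hi
    have h1 : i < (st (i+1)).m := lt_of_lt_of_le (Nat.lt_succ_self i) (hm (i+1))
    have h2 := hstab (i+1) (max n (i+1)) (le_max_right _ _) i h1
    have h3 := hstab n (max n (i+1)) (le_max_left _ _) i hi
    simp only [z]
    rw [← h2, h3]
  have hz_le : ∀ n i, z i ≤ (st n).v i + (st n).w i := by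
    intro n i
    have h1 : i < (st (max n (i+1))).m :=
      lt_of_lt_of_le (Nat.lt_succ_self i) ((le_max_right n (i+1)).trans (hm _))
    rw [hz_eq _ i h1]
    exact hvw n _ (le_max_left _ _) i
  have hzW0 : z ≤ W0 := by
    intro i
    have := hz_le 0 i
    rw [hst0] at this
    simpa [st0] using this
  refine ⟨z, ⟨hzW0.trans hW0.1, ?_⟩, hzW0.trans hW0w, 2, by simp, ?_⟩
  · intro m
    obtain ⟨s, hsF, hs, hs1⟩ := (hst m).ex
    refine ⟨s, hsF, fun i hi => (hm m).trans (hs i hi).1, ?_⟩
    calc (1 : ℝ≥0∞) ≤ ∑ i ∈ s, (st (m+1)).v i := hs1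
      _ = ∑ i ∈ s, z i := by
        apply Finset.sum_congr rfl
        intro i hi
        exact (hz_eq (m+1) i (hs i hi).2).symm
      _ ≤ _ := le_rfl
  · intro A hA
    by_cases hall : ∀ n, mass (st n).v A < 1/2
    · apply mass_le_of_range
      intro N
      have h1 : ∑ i ∈ Finset.range N, (if A i = true then z i else 0) =
          ∑ i ∈ Finset.range N, (if A i = true then (st N).v i else 0) := by
        apply Finset.sum_congr rfl
        intro i hi
        rw [hz_eq N i (lt_of_lt_of_le (Finset.mem_range.mp hi) (hm N))]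
      rw [h1]
      calc _ ≤ mass (st N).v A := sum_le_mass _ _ _
        _ ≤ 1/2 := (hall N).le
        _ ≤ 2 := by
          rw [one_div]
          exact (ENNReal.inv_le_one.mpr (by norm_num)).trans (by norm_num)
    · push Not at hall
      let n := Nat.find hall
      have hn : 1/2 ≤ mass (st n).v A := Nat.find_spec hall
      have hn0 : n ≠ 0 := by
        intro h0
        rw [h0, hst0] at hn
        simp [st0, mass_zero] at hn
      obtain ⟨k, hk⟩ := Nat.exists_eq_succ_of_ne_zero hn0
      have hk' : mass (st k).v A < 1/2 := by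
        have := Nat.find_min hall (m := k) (by
          have : k < n := by omega
          exact this)
        exact not_le.mp this
      rw [hk] at hn
      have h1 := (hst k).mass_le A
      have h2 := (hst k).alt A hA
      have h3 : mass (st (k+1)).w A ≤ 1/4 := by
        rcases h2 with h2 | h2
        · exact absurd h2 (not_lt.mpr hn)
        · exact h2
      calc mass z A ≤ mass ((st (k+1)).v + (st (k+1)).w) A := mass_mono (fun i => hz_le (k+1) i) A
        _ = mass (st (k+1)).v A + mass (st (k+1)).w A := mass_add _ _ _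
        _ ≤ (1/2 + 1) + 1/4 := by
          gcongr
          exact h1.trans (by gcongr)
        _ ≤ 2 := by
          have h4 : (1/2 : ℝ≥0∞) = ENNReal.ofReal (1/2) := by
            rw [ENNReal.ofReal_div_of_pos (by norm_num)]; simp
          have h5 : (1/4 : ℝ≥0∞) = ENNReal.ofReal (1/4) := by
            rw [ENNReal.ofReal_div_of_pos (by norm_num)]; simp
          have h6 : (1 : ℝ≥0∞) = ENNReal.ofReal 1 := by simp
          have h7 : (2 : ℝ≥0∞) = ENNReal.ofReal 2 := by simp
          rw [h4, h5, h6, h7, ← ENNReal.ofReal_add (by norm_num) (by norm_num),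
            ← ENNReal.ofReal_add (by norm_num) (by norm_num)]
          apply ENNReal.ofReal_le_ofReal
          norm_num

end Pool.Agent.W_MP_441f99_an
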