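import Pool.Agent.W_MP_441f99_an.Main
import Pool.Agent.W_MP_441f99_an.Defs

set_option autoImplicit false

namespace Pool.Agent.W_MP_441f99_an

open Set Topology ENNReal

variable {F : Set (Finset ℕ)}

lemma indicator_term (A : ℕ → Bool) (y : ℕ → ℝ) (i : ℕ) :
    ENNReal.ofReal |({i | A i = true} : Set ℕ).indicator y i| =
      if A i = true then ENNReal.ofReal |y i| else 0 := by
  by_cases h : A i = true
  · rw [if_pos h, Set.indicator_of_mem]
    exact h
  · rw [if_neg h, Set.indicator_of_notMem]
    · simp
    · exact h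

lemma mass_total (x : ℕ → ℕ →₀ ℝ) (A : ℕ → Bool) :
    mass (fun i => ∑' n, ENNReal.ofReal |x n i|) A =
      ∑' n, normOne (({i | A i = true} : Set ℕ).indicator (x n)) := by
  unfold mass normOne
  rw [ENNReal.tsum_comm]
  congr 1
  funext i
  simp only [indicator_term]
  by_cases h : A i = true
  · simp [h]
  · simp [h]

lemma normF_le_sum (F : Set (Finset ℕ)) (y : ℕ → ℝ) (t : Finset ℕ) (h : ∀ i, i ∉ t → y i = 0) :
    normF F y ≤ ∑ i ∈ t, ENNReal.ofReal |y i| := by
  classical
  unfold normF
  apply iSup₂_le
  intro s _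
  have h1 : ∑ i ∈ s, ENNReal.ofReal |y i| = ∑ i ∈ s ∩ t, ENNReal.ofReal |y i| := by
    symm
    apply Finset.sum_subset Finset.inter_subset_left
    intro i hi hit
    have : i ∉ t := by
      intro hc
      exact hit (Finset.mem_inter.mpr ⟨hi, hc⟩)
    rw [h i this]
    simp
  rw [h1]
  exact Finset.sum_le_sum_of_subset Finset.inter_subset_right

lemma normF_le_one (F : Set (Finset ℕ)) (y : ℕ → ℝ) : normF F y ≤ normOne y := by
  unfold normF normOne
  apply iSup₂_le
  intro s _
  exact ENNReal.sum_le_tsum s

lemma supp_ge {x : ℕ → ℕ →₀ ℝ} (hx : IsSupportedBlock F x) :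
    ∀ n, ∀ i ∈ (x n).support, n ≤ i := by
  intro n
  induction n with
  | zero => intro i _; exact Nat.zero_le _
  | succ n ih =>
    intro i hi
    have hne : (x n).support.Nonempty := by
      rw [Finset.nonempty_iff_ne_empty]
      intro hc
      have h1 := hx.normalized n
      have h2 : normF F (x n) ≤ ∑ i ∈ (∅ : Finset ℕ), ENNReal.ofReal |x n i| := by
        apply normF_le_sum
        intro i _
        rw [← Finsupp.notMem_support_iff, hc]
        exact Finset.notMem_empty i
      rw [h1] at h2
      simp at h2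
    obtain ⟨j, hj⟩ := hne
    have := hx.successive n j hj i hi
    have := ih j hj
    omega

/-- building a bounded block sequence from an admissible bounded weight -/
lemma build (hF : IsHereditaryCover F) {w₀ w : ℕ → ℝ≥0∞} (hfin : ∀ i, w₀ i ≠ ∞)
    (hw : Adm F w₀ w) {C : ℝ≥0∞} (hb : ∀ A ∈ K F, mass w A ≤ C) :
    ∃ y : ℕ → ℕ →₀ ℝ, IsSupportedBlock F y ∧
      ∀ A ∈ closureF F, ∑' n, normF F (A.indicator (y n)) ≤ C := by
  classical
  choose s hsF hsm hs1 using hw.2
  let m : ℕ → ℕ := fun n => Nat.rec 0 (fun _ k => max (k+1) ((s k).sup id + 1)) n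
  have hm_succ : ∀ n, m (n+1) = max (m n + 1) ((s (m n)).sup id + 1) := fun n => rfl
  have hm_lt : ∀ n, m n < m (n+1) := by
    intro n
    rw [hm_succ]
    exact lt_of_lt_of_le (Nat.lt_succ_self _) (le_max_left _ _)
  have hm_mono : StrictMono m := strictMono_nat_of_lt_succ hm_lt
  let t : ℕ → Finset ℕ := fun n => s (m n)
  have ht_ge : ∀ n, ∀ i ∈ t n, m n ≤ i := fun n i hi => hsm (m n) i hi
  have ht_lt : ∀ n, ∀ i ∈ t n, i < m (n+1) := by
    intro n i hi
    have : i ≤ (s (m n)).sup id := Finset.le_sup (f := id) hi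
    rw [hm_succ]
    exact lt_of_lt_of_le (Nat.lt_succ_of_le this) (le_max_right _ _)
  have hwfin : ∀ i, w i ≠ ∞ := fun i => ne_top_of_le_ne_top (hfin i) (hw.1 i)
  let S : ℕ → ℝ≥0∞ := fun n => ∑ i ∈ t n, w i
  have hS1 : ∀ n, 1 ≤ S n := fun n => hs1 (m n)
  have hS0 : ∀ n, S n ≠ 0 := fun n => (lt_of_lt_of_le one_pos (hS1 n)).ne'
  have hStop : ∀ n, S n ≠ ∞ := by
    intro n
    rw [ENNReal.sum_ne_top]
    intro i _
    exact hwfin i
  have hdiv : ∀ n i, w i / S n ≤ w i := by
    intro n i
    exact ENNReal.div_le_of_le_mul (by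
        calc w i = w i * 1 := (mul_one _).symm
          _ ≤ w i * S n := by gcongr; exact hS1 n)
  let y : ℕ → ℕ →₀ ℝ := fun n => Finsupp.onFinset (t n)
    (fun i => if i ∈ t n then (w i / S n).toReal else 0) (by
      intro i hi
      by_contra hc
      rw [if_neg hc] at hi
      exact hi rfl)
  have hy : ∀ n i, y n i = if i ∈ t n then (w i / S n).toReal else 0 := fun n i => rfl
  have hy' : ∀ n i, ENNReal.ofReal |y n i| = if i ∈ t n then w i / S n else 0 := by
    intro n i
    rw [hy]
    split_ifs
    · rw [abs_of_nonneg ENNReal.toReal_nonneg, ENNReal.ofReal_toReal]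
      exact ne_top_of_le_ne_top (hwfin i) (hdiv n i)
    · simp
  have hsupp : ∀ n, (y n).support ⊆ t n := by
    intro n i hi
    by_contra hc
    rw [Finsupp.mem_support_iff, hy, if_neg hc] at hi
    exact hi rfl
  have hsum : ∀ n, ∑ i ∈ t n, ENNReal.ofReal |y n i| = 1 := by
    intro n
    have : ∑ i ∈ t n, ENNReal.ofReal |y n i| = ∑ i ∈ t n, w i / S n := by
      apply Finset.sum_congr rfl
      intro i hi
      rw [hy', if_pos hi]
    rw [this]
    simp only [div_eq_mul_inv]
    rw [← Finset.sum_mul]
    exact ENNReal.mul_inv_cancel (hS0 n) (hStop n)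
  refine ⟨y, ⟨?_, ?_, ?_⟩, ?_⟩
  · intro n i hi j hj
    exact lt_of_lt_of_le (ht_lt n i (hsupp n hi)) (ht_ge (n+1) j (hsupp (n+1) hj))
  · intro n
    apply le_antisymm
    · rw [← hsum n]
      apply normF_le_sum
      intro i hi
      rw [hy, if_neg hi]
    · rw [← hsum n]
      exact le_iSup₂ (f := fun s (_ : s ∈ F) => ∑ i ∈ s, ENNReal.ofReal |y n i|) (t n) (hsF (m n))
  · intro n
    exact hF.hereditary (t n) (hsF (m n)) _ (hsupp n)
  · intro A hA
    let B : ℕ → Bool := fun i => decide (i ∈ A)
    have hB : B ∈ K F := by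
      intro s hs
      apply hA
      intro i hi
      have := hs i hi
      simpa [B] using this
    have hBA : ({i | B i = true} : Set ℕ) = A := by
      ext i; simp [B]
    calc ∑' n, normF F (A.indicator (y n)) ≤ ∑' n, normOne (A.indicator (y n)) :=
          ENNReal.tsum_le_tsum (fun n => normF_le_one F _)
      _ = mass (fun i => ∑' n, ENNReal.ofReal |y n i|) B := by
          rw [mass_total, hBA]
      _ ≤ mass w B := by
          apply mass_mono
          intro i
          simp only [hy']
          by_cases hi : ∃ n, i ∈ t n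
          · obtain ⟨n, hn⟩ := hi
            rw [tsum_eq_single n]
            · rw [if_pos hn]
              exact hdiv n i
            · intro k hk
              rw [if_neg]
              intro hik
              rcases lt_or_gt_of_ne hk with h | h
              · have h1 := ht_lt k i hik
                have h2 := ht_ge n i hn
                have h3 : m (k+1) ≤ m n := hm_mono.monotone h
                omega
              · have h1 := ht_lt n i hn
                have h2 := ht_ge k i hik
                have h3 : m (n+1) ≤ m k := hm_mono.monotone h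
                omega
          · push Not at hi
            have : ∀ n, (if i ∈ t n then w i / S n else 0) = 0 := fun n => if_neg (hi n)
            simp only [this, tsum_zero]
            exact zero_le
      _ ≤ C := hb B hB

theorem final (F : Set (Finset ℕ)) (hF : IsHereditaryCover F) (hN : NotC0 F) : PropSigma F := by
  classical
  intro x hx
  by_contra hcon
  push Not at hcon
  let w₀ : ℕ → ℝ≥0∞ := fun i => ∑' n, ENNReal.ofReal |x n i|
  have hb : ∀ A ∈ K F, mass w₀ A ≠ ∞ := by
    intro A hA
    rw [mass_total]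
    apply hcon
    intro s hs
    apply hA
    intro i hi
    exact hs hi
  have hfin : ∀ i, w₀ i ≠ ∞ := by
    intro i
    have h1 : (fun j => decide (j = i)) ∈ K F := by
      intro s hs
      apply hF.hereditary {i} (hF.covers i)
      intro j hj
      have := hs j hj
      simpa using this
    have h2 := hb _ h1
    apply ne_top_of_le_ne_top h2
    calc w₀ i = ∑ j ∈ {i}, (if (fun j => decide (j = i)) j = true then w₀ j else 0) := by simp
      _ ≤ _ := sum_le_mass _ _ _
  have hadm : Adm F w₀ w₀ := by
    refine ⟨le_rfl, ?_⟩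
    intro m
    refine ⟨(x m).support, hx.supported m, supp_ge hx m, ?_⟩
    calc (1 : ℝ≥0∞) = normF F (x m) := (hx.normalized m).symm
      _ ≤ ∑ i ∈ (x m).support, ENNReal.ofReal |x m i| := by
        apply normF_le_sum
        intro i hi
        exact Finsupp.notMem_support_iff.mp hi
      _ ≤ ∑ i ∈ (x m).support, w₀ i := by
        apply Finset.sum_le_sum
        intro i _
        exact ENNReal.le_tsum m
  obtain ⟨w, hw, C, hC, hwC⟩ := core hfin hadm hb
  obtain ⟨y, hy, hyC⟩ := build hF hfin hw hwC
  have h1 := hN y hy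
  have h2 : ⨆ A ∈ closureF F, ∑' n, normF F (A.indicator (y n)) ≤ C := iSup₂_le hyC
  rw [h1] at h2
  exact hC (top_le_iff.mp h2)

end Pool.Agent.W_MP_441f99_an
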