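import Pool.Agent.W_MP_441f99_an.Diag

set_option autoImplicit false

/-!
The Baire category step.
-/

namespace Pool.Agent.W_MP_441f99_an

open Set Topology ENNReal

variable {F : Set (Finset ℕ)} {w₀ : ℕ → ℝ≥0∞}

lemma continuous_partial (v : ℕ → ℝ≥0∞) (i : ℕ) :
    Continuous (fun A : ℕ → Bool => if A i = true then v i else 0) := by
  have h : Continuous (fun b : Bool => if b = true then v i else 0) :=
    continuous_of_discreteTopology
  exact h.comp (continuous_apply i)

lemma isOpen_mass_lt (v : ℕ → ℝ≥0∞) (m : ℕ) (hv : ∀ i, m ≤ i → v i = 0) (c : ℝ≥0∞) :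
    IsOpen {A : ℕ → Bool | mass v A < c} := by
  have h : ∀ A, mass v A = ∑ i ∈ Finset.range m, (if A i = true then v i else 0) := by
    intro A
    unfold mass
    apply tsum_eq_sum
    intro i hi
    rw [Finset.mem_range, not_lt] at hi
    rw [hv i hi]
    simp
  have h2 : Continuous (fun A : ℕ → Bool => mass v A) := by
    have : (fun A : ℕ → Bool => mass v A) =
        fun A => ∑ i ∈ Finset.range m, (if A i = true then v i else 0) := funext h
    rw [this]
    exact continuous_finsetSum _ (fun i _ => continuous_partial v i)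
  exact isOpen_lt h2 continuous_const

lemma isClosed_mass_le (v : ℕ → ℝ≥0∞) (c : ℝ≥0∞) :
    IsClosed {A : ℕ → Bool | mass v A ≤ c} := by
  have : {A : ℕ → Bool | mass v A ≤ c} =
      ⋂ s : Finset ℕ, {A | ∑ i ∈ s, (if A i = true then v i else 0) ≤ c} := by
    ext A
    simp only [mem_ofPred_eq, mem_iInter]
    unfold mass
    rw [ENNReal.tsum_eq_iSup_sum, iSup_le_iff]
  rw [this]
  apply isClosed_iInter
  intro s
  exact isClosed_le (continuous_finsetSum _ (fun i _ => continuous_partial v i)) continuous_const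

/-- the bad kernel -/
def Ker (F : Set (Finset ℕ)) (w₀ : ℕ → ℝ≥0∞) : Set (ℕ → Bool) :=
  {A | A ∈ K F ∧ ∀ U ∈ 𝓝 A, ¬ Good F w₀ (K F ∩ U)}

lemma isClosed_Ker : IsClosed (Ker F w₀) := by
  rw [← isOpen_compl_iff, isOpen_iff_mem_nhds]
  intro A hA
  by_cases hK : A ∈ K F
  · have : ∃ U ∈ 𝓝 A, Good F w₀ (K F ∩ U) := by
      by_contra hc
      push Not at hc
      exact hA ⟨hK, hc⟩
    obtain ⟨U, hU, hg⟩ := this
    obtain ⟨V, hVU, hV, hAV⟩ := mem_nhds_iff.mp hU
    apply Filter.mem_of_superset (hV.mem_nhds hAV)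
    intro B hB hBK
    exact hBK.2 U (Filter.mem_of_superset (hV.mem_nhds hB) hVU) hg
  · apply Filter.mem_of_superset ((isClosed_K F).isOpen_compl.mem_nhds hK)
    intro B hB hBK
    exact hB hBK.1

lemma good_of_ker (hfin : ∀ i, w₀ i ≠ ∞) (H : Hyp F w₀) (V : Set (ℕ → Bool)) (hV : IsClosed V)
    (hg : Good F w₀ (Ker F w₀ ∩ V)) : Good F w₀ (K F ∩ V) := by
  apply diag hfin H hg
  intro v m hv hvL'
  have hQ : IsCompact {A | A ∈ K F ∩ V ∧ ¬ mass v A < 1/2} := by
    apply IsClosed.isCompact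
    have : {A | A ∈ K F ∩ V ∧ ¬ mass v A < 1/2} = (K F ∩ V) ∩ {A | mass v A < 1/2}ᶜ := by
      ext A; simp; tauto
    rw [this]
    exact ((isClosed_K F).inter hV).inter (isOpen_mass_lt v m hv _).isClosed_compl
  apply hQ.induction_on (p := Good F w₀)
  · exact good_empty
  · intro s t hst ht
    exact good_mono hst ht
  · intro s t hs ht
    exact good_union hs ht
  · intro A hA
    have hA1 : A ∉ Ker F w₀ := by
      intro hc
      exact hA.2 (hvL' A ⟨hc, hA.1.2⟩)
    have : ∃ U ∈ 𝓝 A, Good F w₀ (K F ∩ U) := by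
      by_contra hc
      push Not at hc
      exact hA1 ⟨hA.1.1, hc⟩
    obtain ⟨U, hU, hgU⟩ := this
    refine ⟨K F ∩ U, ?_, hgU⟩
    apply Filter.inter_mem
    · apply mem_nhdsWithin.mpr
      refine ⟨univ, isOpen_univ, mem_univ _, ?_⟩
      rintro B ⟨_, hB⟩
      exact hB.1.1
    · exact mem_nhdsWithin_of_mem_nhds hU

theorem core (hfin : ∀ i, w₀ i ≠ ∞) (hadm : Adm F w₀ w₀) (hb : ∀ A ∈ K F, mass w₀ A ≠ ∞) :
    ∃ w, Adm F w₀ w ∧ ∃ C : ℝ≥0∞, C ≠ ∞ ∧ ∀ A ∈ K F, mass w A ≤ C := by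
  by_contra hcon
  have H : Hyp F w₀ := by
    intro w hw C hC
    by_contra hc
    push Not at hc
    exact hcon ⟨w, hw, C, hC, hc⟩
  have hKbad : ¬ Good F w₀ (K F) := by
    intro hg
    obtain ⟨w', h1, _, C, h3, h4⟩ := hg w₀ hadm
    exact hcon ⟨w', h1, C, h3, h4⟩
  have hne : (Ker F w₀).Nonempty := by
    by_contra hc
    rw [Set.not_nonempty_iff_eq_empty] at hc
    have := good_of_ker hfin H univ isClosed_univ (by rw [hc]; simpa using good_empty)
    rw [inter_univ] at this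
    exact hKbad this
  have hcl : IsClosed (Ker F w₀) := isClosed_Ker
  have hcomp : CompactSpace (Ker F w₀) := isCompact_iff_compactSpace.mp hcl.isCompact
  have hnon : Nonempty (Ker F w₀) := hne.to_subtype
  have := nonempty_interior_of_iUnion_of_closed
    (f := fun n : ℕ => {A : Ker F w₀ | mass w₀ A.1 ≤ n}) (by
      intro n
      exact (isClosed_mass_le w₀ n).preimage continuous_subtype_val) (by
      rw [Set.eq_univ_iff_forall]
      intro A
      rw [mem_iUnion]
      obtain ⟨n, hn⟩ := ENNReal.exists_nat_gt (hb A.1 A.2.1)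
      exact ⟨n, hn.le⟩)
  obtain ⟨n, A, hA⟩ := this
  rw [mem_interior] at hA
  obtain ⟨O, hO, hOo, hAO⟩ := hA
  obtain ⟨V0, hV0, hV0O⟩ := isOpen_induced_iff.mp hOo
  have hAV0 : A.1 ∈ V0 := by
    rw [← hV0O] at hAO
    exact hAO
  obtain ⟨V, hV, hAV, hVV0⟩ := compact_exists_isClopen_in_isOpen hV0 hAV0
  have hg : Good F w₀ (Ker F w₀ ∩ V) := by
    intro w hw
    refine ⟨w, hw, le_rfl, n, by simp, ?_⟩
    intro B hB
    have h1 : (⟨B, hB.1⟩ : Ker F w₀) ∈ O := by
      rw [← hV0O]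
      exact hVV0 hB.2
    exact (mass_mono hw.1 B).trans (hO h1)
  exact A.2.2 V (hV.2.mem_nhds hAV) (good_of_ker hfin H V hV.1 hg)

end Pool.Agent.W_MP_441f99_an
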